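import Pool.Agent.helper8.GD.Spec
import Pool.Agent.helper85.TG.VA2
import Pool.Agent.helper85.BVP.Tau

/-!
# gd:E1  type I sums on average with the divisor function
-/

set_option autoImplicit false

namespace GD

open Finset ArithmeticFunction
open Pool.Agent.helper74.TG (ee gb)

theorem E1_abel (a : ℕ → ℝ) (Y : ℕ) : ∑ k ∈ Ioc 0 Y, a k / k =
    (∑ k ∈ Ioc 0 Y, a k) / ((Y : ℝ) + 1) +
      ∑ n ∈ Ioc 0 Y, (∑ k ∈ Ioc 0 n, a k) * (1 / (n : ℝ) - 1 / ((n : ℝ) + 1)) := by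
  induction Y with
  | zero => simp
  | succ Y ih =>
    rw [Finset.sum_Ioc_succ_top (by omega), Finset.sum_Ioc_succ_top (by omega),
      Finset.sum_Ioc_succ_top (by omega), ih, Finset.sum_Ioc_succ_top (by omega)]
    push_cast
    have h1 : (Y : ℝ) + 1 ≠ 0 := by positivity
    have h2 : (Y : ℝ) + 1 + 1 ≠ 0 := by positivity
    field_simp
    ring

theorem E1_harm (Y : ℕ) : ∑ n ∈ Ioc 0 Y, 1 / (n : ℝ) ≤ 1 + Real.log Y := by
  have h := harmonic_le_one_add_log Y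
  have h2 : ((harmonic Y : ℚ) : ℝ) = ∑ n ∈ Ioc 0 Y, 1 / (n : ℝ) := by
    rw [harmonic_eq_sum_Icc]
    push_cast
    refine Finset.sum_congr ?_ fun x _ => by rw [one_div]
    ext x
    simp only [Finset.mem_Icc, Finset.mem_Ioc]
    omega
  rw [h2] at h
  exact h

theorem E1_tau (Y : ℕ) (hY : 0 < Y) :
    ∑ k ∈ Ioc 0 Y, ((k.divisors.card : ℝ)) ^ 2 / k ≤ 2 * (1 + Real.log Y) ^ 4 := by
  have hL : 0 ≤ Real.log Y := Real.log_natCast_nonneg Y
  have hS : ∀ n : ℕ, 0 < n → n ≤ Y → ∑ k ∈ Ioc 0 n, ((k.divisors.card : ℝ)) ^ 2 ≤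
      n * (1 + Real.log Y) ^ 3 := by
    intro n hn hnY
    have h1 := Pool.Agent.helper85.BVP.sum_tau_sq_le n
    have h2 : Real.log n ≤ Real.log Y :=
      Real.log_le_log (by exact_mod_cast hn) (by exact_mod_cast hnY)
    have h3 : 0 ≤ Real.log n := Real.log_natCast_nonneg n
    have h4 : (n : ℝ) * (1 + Real.log n) ^ 3 ≤ n * (1 + Real.log Y) ^ 3 := by
      refine mul_le_mul_of_nonneg_left ?_ (Nat.cast_nonneg n)
      exact pow_le_pow_left₀ (by linarith) (by linarith) 3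
    exact h1.trans h4
  rw [E1_abel]
  have hA : (∑ k ∈ Ioc 0 Y, ((k.divisors.card : ℝ)) ^ 2) / ((Y : ℝ) + 1) ≤
      (1 + Real.log Y) ^ 3 := by
    rw [div_le_iff₀ (by positivity)]
    refine (hS Y hY le_rfl).trans ?_
    have : 0 ≤ (1 + Real.log Y) ^ 3 := by positivity
    nlinarith
  have hB : ∑ n ∈ Ioc 0 Y, (∑ k ∈ Ioc 0 n, ((k.divisors.card : ℝ)) ^ 2) *
      (1 / (n : ℝ) - 1 / ((n : ℝ) + 1)) ≤ (1 + Real.log Y) ^ 3 * (1 + Real.log Y) := by
    have h1 : ∀ n ∈ Ioc 0 Y, (∑ k ∈ Ioc 0 n, ((k.divisors.card : ℝ)) ^ 2) *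
        (1 / (n : ℝ) - 1 / ((n : ℝ) + 1)) ≤ (1 + Real.log Y) ^ 3 * (1 / (n : ℝ)) := by
      intro n hn
      rw [Finset.mem_Ioc] at hn
      have hn0 : (0 : ℝ) < n := by exact_mod_cast hn.1
      have h2 := hS n hn.1 hn.2
      have h3 : 0 ≤ 1 / (n : ℝ) - 1 / ((n : ℝ) + 1) := by
        rw [sub_nonneg]
        exact one_div_le_one_div_of_le hn0 (by linarith)
      refine (mul_le_mul_of_nonneg_right h2 h3).trans ?_
      have h4 : (n : ℝ) * (1 + Real.log Y) ^ 3 * (1 / (n : ℝ) - 1 / ((n : ℝ) + 1)) =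
          (1 + Real.log Y) ^ 3 * (1 / ((n : ℝ) + 1)) := by
        field_simp
        ring
      rw [h4]
      refine mul_le_mul_of_nonneg_left ?_ (by positivity)
      exact one_div_le_one_div_of_le hn0 (by linarith)
    refine (Finset.sum_le_sum h1).trans ?_
    rw [← Finset.mul_sum]
    exact mul_le_mul_of_nonneg_left (E1_harm Y) (by positivity)
  have h5 : (1 + Real.log Y) ^ 3 ≤ (1 + Real.log Y) ^ 4 :=
    pow_le_pow_right₀ (by linarith) (by norm_num)
  have h6 : (1 + Real.log Y) ^ 3 * (1 + Real.log Y) = (1 + Real.log Y) ^ 4 := by ring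
  linarith

theorem E1_gb_nonneg {X β : ℝ} (hX : 0 ≤ X) : 0 ≤ gb X β := by
  unfold gb
  split_ifs
  · exact hX
  · positivity

theorem E1_gb_le {X β : ℝ} : gb X β ≤ X := by
  unfold gb
  split_ifs with h1
  · exact le_rfl
  · push Not at h1
    have h2 : 0 ≤ |β - round β| := abs_nonneg _
    rcases h2.lt_or_eq with h3 | h3
    · rw [div_le_iff₀ (by positivity)]
      nlinarith
    · rw [← h3] at h1
      norm_num at h1

theorem E1 : E1_stmt := by
  obtain ⟨C1, hC1, hT⟩ := Pool.Agent.helper74.TG.typeI_sum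
  refine ⟨4 * √C1, by positivity, ?_⟩
  intro α a q X Y hq hY hqX hYX hcop hα
  have hX1 : (1 : ℝ) ≤ X := by
    have : 0 < X := lt_of_lt_of_le hq hqX
    exact_mod_cast this
  have hq0 : (0 : ℝ) < q := by exact_mod_cast hq
  have hY0 : (0 : ℝ) < Y := by exact_mod_cast hY
  have hL : 0 ≤ Real.log X := Real.log_natCast_nonneg X
  have hg : ∀ k ∈ Ioc 0 Y, 0 ≤ gb (2 * X / k) (k * α) := fun k _ =>
    E1_gb_nonneg (by positivity)
  have h0 : ∑ k ∈ Ioc 0 Y, (k.divisors.card : ℝ) * gb ((X : ℝ) / k + 1) (k * α) ≤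
      ∑ k ∈ Ioc 0 Y, (k.divisors.card : ℝ) * gb (2 * X / k) (k * α) := by
    refine Finset.sum_le_sum fun k hk => ?_
    rw [Finset.mem_Ioc] at hk
    have hk0 : (0 : ℝ) < k := by exact_mod_cast hk.1
    refine mul_le_mul_of_nonneg_left ?_ (Nat.cast_nonneg _)
    refine Pool.Agent.helper74.TG.gb_mono _ _ _ ?_ (by positivity)
    have hkX : (k : ℝ) ≤ X := by exact_mod_cast hk.2.trans hYX
    have : 1 ≤ (X : ℝ) / k := by
      rw [le_div_iff₀ hk0]
      linarith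
    have h2 : 2 * (X : ℝ) / k = X / k + X / k := by ring
    rw [h2]
    linarith
  refine h0.trans ?_
  have h1 : (∑ k ∈ Ioc 0 Y, (k.divisors.card : ℝ) * gb (2 * X / k) (k * α)) ^ 2 ≤
      (∑ k ∈ Ioc 0 Y, (k.divisors.card : ℝ) ^ 2 * gb (2 * X / k) (k * α)) *
        ∑ k ∈ Ioc 0 Y, gb (2 * X / k) (k * α) := by
    have h2 := Finset.sum_mul_sq_le_sq_mul_sq (Ioc 0 Y)
      (fun k : ℕ => (k.divisors.card : ℝ) * √(gb (2 * X / k) (k * α)))
      (fun k : ℕ => √(gb (2 * X / k) (k * α)))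
    have e1 : ∑ k ∈ Ioc 0 Y, (k.divisors.card : ℝ) * √(gb (2 * X / k) (k * α)) *
        √(gb (2 * X / k) (k * α)) =
        ∑ k ∈ Ioc 0 Y, (k.divisors.card : ℝ) * gb (2 * X / k) (k * α) := by
      refine Finset.sum_congr rfl fun k hk => ?_
      rw [mul_assoc, Real.mul_self_sqrt (hg k hk)]
    have e2 : ∑ k ∈ Ioc 0 Y, ((k.divisors.card : ℝ) * √(gb (2 * X / k) (k * α))) ^ 2 =
        ∑ k ∈ Ioc 0 Y, (k.divisors.card : ℝ) ^ 2 * gb (2 * X / k) (k * α) := by
      refine Finset.sum_congr rfl fun k hk => ?_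
      rw [mul_pow, Real.sq_sqrt (hg k hk)]
    have e3 : ∑ k ∈ Ioc 0 Y, √(gb (2 * X / k) (k * α)) ^ 2 =
        ∑ k ∈ Ioc 0 Y, gb (2 * X / k) (k * α) := by
      refine Finset.sum_congr rfl fun k hk => ?_
      rw [Real.sq_sqrt (hg k hk)]
    rw [e1, e2, e3] at h2
    exact h2
  have h3 : ∑ k ∈ Ioc 0 Y, (k.divisors.card : ℝ) ^ 2 * gb (2 * X / k) (k * α) ≤
      4 * X * (1 + Real.log X) ^ 4 := by
    have h4 : ∑ k ∈ Ioc 0 Y, (k.divisors.card : ℝ) ^ 2 * gb (2 * X / k) (k * α) ≤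
        ∑ k ∈ Ioc 0 Y, 2 * X * ((k.divisors.card : ℝ) ^ 2 / k) := by
      refine Finset.sum_le_sum fun k hk => ?_
      refine (mul_le_mul_of_nonneg_left E1_gb_le (by positivity)).trans_eq ?_
      ring
    rw [← Finset.mul_sum] at h4
    refine h4.trans ?_
    have h5 := E1_tau Y hY
    have h6 : Real.log Y ≤ Real.log X := Real.log_le_log hY0 (by exact_mod_cast hYX)
    have h7 : 0 ≤ Real.log Y := Real.log_natCast_nonneg Y
    have h8 : (1 + Real.log Y) ^ 4 ≤ (1 + Real.log X) ^ 4 :=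
      pow_le_pow_left₀ (by linarith) (by linarith) 4
    calc 2 * (X : ℝ) * ∑ k ∈ Ioc 0 Y, (k.divisors.card : ℝ) ^ 2 / k
        ≤ 2 * X * (2 * (1 + Real.log X) ^ 4) := by
          refine mul_le_mul_of_nonneg_left ?_ (by positivity)
          linarith
      _ = _ := by ring
  have h9 : ∑ k ∈ Ioc 0 Y, gb (2 * X / k) (k * α) ≤
      C1 * (4 * ((X : ℝ) / q + Y + q)) * (1 + Real.log X) := by
    have h10 := hT α a q Y (2 * X) hq hY (by linarith) hcop hα
    refine h10.trans ?_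
    have h11 : Real.log (q * Y) ≤ 2 * Real.log X := by
      have e : 2 * Real.log X = Real.log (X * X) := by
        rw [Real.log_mul (by positivity) (by positivity)]
        ring
      rw [e]
      refine Real.log_le_log (by positivity) ?_
      exact mul_le_mul (by exact_mod_cast hqX) (by exact_mod_cast hYX) hY0.le (by linarith)
    have h12 : 2 * (X : ℝ) / q + Y + q ≤ 2 * ((X : ℝ) / q + Y + q) := by
      have : 2 * (X : ℝ) / q = 2 * (X / q) := by ring
      rw [this]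
      have : 0 ≤ (X : ℝ) / q := by positivity
      linarith
    have h13 : 1 + Real.log (q * Y) ≤ 2 * (1 + Real.log X) := by linarith
    have hq1 : (1 : ℝ) ≤ q := by exact_mod_cast hq
    have hY1 : (1 : ℝ) ≤ Y := by exact_mod_cast hY
    have h14 : 0 ≤ Real.log (q * Y) := Real.log_nonneg (by nlinarith)
    calc C1 * (2 * (X : ℝ) / q + Y + q) * (1 + Real.log (q * Y))
        ≤ C1 * (2 * ((X : ℝ) / q + Y + q)) * (2 * (1 + Real.log X)) := by
          refine mul_le_mul ?_ h13 (by linarith) (by positivity)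
          exact mul_le_mul_of_nonneg_left h12 hC1.le
      _ = _ := by ring
  have h15 : (∑ k ∈ Ioc 0 Y, (k.divisors.card : ℝ) * gb (2 * X / k) (k * α)) ^ 2 ≤
      (4 * √C1 * √X * √((X : ℝ) / q + Y + q) * (1 + Real.log X) ^ 3) ^ 2 := by
    refine h1.trans ((mul_le_mul h3 h9 (Finset.sum_nonneg hg) (by positivity)).trans ?_)
    have e : (4 * √C1 * √X * √((X : ℝ) / q + Y + q) * (1 + Real.log X) ^ 3) ^ 2 =
        16 * C1 * X * ((X : ℝ) / q + Y + q) * (1 + Real.log X) ^ 6 := by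
      have s1 : √C1 ^ 2 = C1 := Real.sq_sqrt hC1.le
      have s2 : √(X : ℝ) ^ 2 = X := Real.sq_sqrt (by positivity)
      have s3 : √((X : ℝ) / q + Y + q) ^ 2 = (X : ℝ) / q + Y + q := Real.sq_sqrt (by positivity)
      calc (4 * √C1 * √X * √((X : ℝ) / q + Y + q) * (1 + Real.log X) ^ 3) ^ 2
          = 16 * √C1 ^ 2 * √(X : ℝ) ^ 2 * √((X : ℝ) / q + Y + q) ^ 2 *
            (1 + Real.log X) ^ 6 := by ring
        _ = _ := by rw [s1, s2, s3]
    rw [e]
    have h16 : (1 + Real.log X) ^ 5 ≤ (1 + Real.log X) ^ 6 :=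
      pow_le_pow_right₀ (by linarith) (by norm_num)
    calc 4 * (X : ℝ) * (1 + Real.log X) ^ 4 * (C1 * (4 * ((X : ℝ) / q + Y + q)) *
          (1 + Real.log X))
        = 16 * C1 * X * ((X : ℝ) / q + Y + q) * (1 + Real.log X) ^ 5 := by ring
      _ ≤ 16 * C1 * X * ((X : ℝ) / q + Y + q) * (1 + Real.log X) ^ 6 :=
          mul_le_mul_of_nonneg_left h16 (by positivity)
  exact le_of_sq_le_sq h15 (by positivity)

end GD
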